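import Mathlib
import Pool.Agent.Q61.CV.Def
import Pool.Agent.Q61.CV.Stm
import Pool.Agent.Q61.CV.Wie
import Pool.Agent.Q79.CV.Inj
import Pool.Agent.Q79.CV.Inv
import Pool.Agent.Q79.CV.Dom
import Pool.Agent.Q79.CV.CVa
import Pool.Agent.Q79.CV.CVb
import Pool.Agent.Q79.CV.CVc
import Pool.Agent.Q79.CV.Glue
import Pool.Agent.Q79.CV.GL2
import Pool.Agent.Q79.CV.Weak
import Pool.Agent.Q79.CV.TrBas
import Pool.Agent.Q79.CV.TrC
import Pool.Agent.Q79.CV.C1
import Pool.Agent.Q79.CV.C5
import Pool.Agent.Q79.CV.C6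
import Pool.Agent.Q79.CV.C8
import Pool.Agent.Q79.CV.C9
import Pool.Agent.Q79.CV.C10
import Pool.Agent.Q79.CV.C11
import Pool.Agent.Q79.CV.C12
import Pool.Agent.Q79.CV.E
import Pool.Agent.Q79.CV.K
import Pool.Agent.Q79.CV.QR
import Pool.Agent.Q79.CV.N1
import Pool.Agent.Q79.CV.N0b
import Pool.Agent.Q79.CV.Fix
import Pool.Agent.Q79.CV.EV

/-!
# MP_8dfb46_an: a convex core with a nonconvex solution of the two-phase outer problem

The convexity question for the outer two-phase Serrin problem has a negative answer: in the plane,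
with `σc = 1/100`, there are a convex domain `D` and a domain `Ω ⊃ closure D` which is not convex such
that `(D, Ω)` is a solution of the overdetermined problem.

The domains are perturbations of discs with `k`-fold symmetry, `k` large. `Ω` is the image of the
unit disc under the polynomial `E` with `E' = (1 + η^k / k)^2` (so `|E'|` is such that the normal
derivative is constant for an explicit harmonic function `Re H`; the curvature of the boundary is
negative near the points where `η^k = -1`). The interface is the curve `E (Θ (|ζ| = 1))`,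
`Θ ζ = ζ exp (-(κ + ψ (ζ^k)) / k)`, `κ = 1/10`, at the distance about `κ / k` from the boundary, where
`ψ` solves a nonlinear equation (the transmission conditions) in the weighted Wiener algebra by the
contraction principle. The equation amplifies the first mode of the interface so that the term of
order `1/k` of `ψ` compensates the curvature: the core is convex.
-/

open MeasureTheory Set Filter Topology Metric
open scoped ContDiff RealInnerProductSpace ComplexConjugate NNReal

namespace Pool.Agent.Results.MP_8dfb46_an.ConvexCoreNonconvex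

open Pool.Agent.Q61.CV Pool.Agent.Q79.CV
open Pool.Agent.Helper87.VT (exists_TWc)

/-- The nonlinear equation has a solution for all large `k`. -/
theorem fp : S_FP := by
  have hEP : S_EP := ep' e1' e3'
  have hQ : S_QQ := qq' k' hEP
  have hR : S_RL := rl' k' hEP
  have hN1 : S_N1 := n1' e1' e2' e3' e4' k' hQ hR
  have hN0 : S_N0 := n0' e2' k'
  have hF : S_FIX := fix' hN1 hN0
  have hEV : S_EV := ev' e5' (ns' e5')
  obtain ⟨B, i1, i2, i3, ⟨T⟩⟩ := exists_TWc
  obtain ⟨P, hP⟩ := pr' T
  filter_upwards [hF, eventually_ge_atTop 1] with k hk hk1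
  obtain ⟨x, hx, hx2⟩ := hk T P hP
  obtain ⟨A, hA⟩ := hEV T P hP k x hk1 hx hx2
  exact ⟨_, A, hA⟩

theorem main : ∃ (D Ω : Set ℂ), Convex ℝ D ∧ IsSolution sg D Ω ∧ ¬ Convex ℝ Ω := by
  have hI : S_INV := inv inj
  have hD : S_DOM := dom inj hI
  have hG : S_GL2 := gl2 inj hI glue
  have hTR : S_TR := tr hI hD ext (w wa wb) (tra inj hI hD hG) (trb inj hI hD hG) (trc hI hD)
    (trd inj hI hD)
  have h7 : S_C7 := c7 c1
  obtain ⟨k, h8, h9, h10, h12, hfp, hk⟩ := ((c8 c1 c5).and ((c9 c1 c5).and ((c10 c5).and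
    ((c12 inj hD h7).and (fp.and (eventually_ge_atTop 20)))))).exists
  obtain ⟨y, A, hDat⟩ := hfp
  obtain ⟨g1, g2, g3, g4, g5⟩ := h8 y A hDat
  obtain ⟨h, hh1, hh2⟩ := h10 y A hDat
  have hk1 : 1 ≤ k := by omega
  have hk0 : (0 : ℝ) < k := by exact_mod_cast hk1
  have hR1 : 1 < RR k := by
    unfold RR
    have : (0 : ℝ) < 1 / (4 * k) := by positivity
    linarith
  have hR2 : RR k ≤ 1 + 1 / k := by
    unfold RR
    have : (1 : ℝ) / (4 * k) ≤ 1 / k := by
      apply one_div_le_one_div_of_le hk0
      linarith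
    linarith
  have hconv : Convex ℝ (core (EE k) (Th k y)) :=
    cvc hD (RR k) (fun ζ => EE k (Th k y ζ)) hR1 g2
      (cvb cva (RR k) (fun ζ => EE k (Th k y ζ)) hR1 g2 (h9 y A hDat))
  have hvol : volume (frontier (core (EE k) (Th k y))) = 0 := hconv.addHaar_frontier volume
  have hball : ∀ ζ : ℂ, ‖ζ‖ = 1 → ζ ∈ ball (0 : ℂ) (RR k) := by
    intro ζ hζ
    rw [mem_ball_zero_iff, hζ]
    exact hR1
  have hne : ∀ ζ : ℂ, ‖ζ‖ = 1 → ζ ≠ 0 := by
    intro ζ hζ h0
    rw [h0, norm_zero] at hζ
    exact zero_ne_one hζ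
  have hS : Setup sg (cc k) (RR k) (EE k) (Th k y) (HH k) h :=
    { σ0 := by unfold sg; norm_num
      R1 := hR1
      goodE := fun z hz => h7 k hk z (ball_subset_ball hR2 hz)
      goodΘ := g1
      goodF := g2
      Θ0 := g3
      Θmap := g4
      ΘR := g5
      Hd := fun η _ hη0 => (c2 k η hk1 hη0).1
      hd := hh1
      im := by
        intro ζ hζ
        rw [hh2 ζ (hball ζ hζ) (hne ζ hζ), Complex.add_im, (c11 k y A hk1 hDat ζ hζ).1, add_zero]
      re := by
        intro ζ hζ
        rw [hh2 ζ (hball ζ hζ) (hne ζ hζ)]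
        exact (c11 k y A hk1 hDat ζ hζ).2
      bd := fun η hη => c3 k η hk1 hη
      nm := fun η hη => c4 k η hk1 hη }
  obtain ⟨r1, r2, r3, r4⟩ := hTR sg (cc k) (RR k) (EE k) (Th k y) (HH k) h hS hvol
  exact ⟨core (EE k) (Th k y), outer (EE k), hconv, ⟨r1, r2, r3, cc k, r4⟩, h12⟩

/-- **The two-phase outer overdetermined problem does not preserve convexity.** In the plane, for
`σ = 1/100`, there are a convex domain `D` and a domain `Ω` containing the closure of `D` which is not
convex such that the pair `(D, Ω)` is a solution of the overdetermined problem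
`-div ((σ 1_D + 1_{Ω \ D}) ∇u) = 1` in `Ω`, `u = 0` and `∂_n u = c` on `∂Ω`. -/
theorem result : ∃ (D Ω : Set ℂ), Convex ℝ D ∧ IsSolution (1 / 100) D Ω ∧ ¬ Convex ℝ Ω :=
  main

end Pool.Agent.Results.MP_8dfb46_an.ConvexCoreNonconvex
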